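import Pool.Agent.Work.MP_d8fac8_al.Groups

set_option autoImplicit false

/-!
# `ℤ + ℤ` is not an amalgamation base for lattice-ordered groups
-/

namespace Pool.Agent.Results.MP_d8fac8_al.CardinalSum

open Pool.Agent.Work.MP_d8fac8_al

universe w

/-- The `ℓ`-group `ℤ + ℤ` with the componentwise order is not an amalgamation base for the class
of all `ℓ`-groups. -/
theorem result : ¬ IsAmalgamationBase.{0, 0, w} (Multiplicative ℤ × Multiplicative ℤ) := by
  intro H
  have hcB : Commute aB bB := orth_commute aB_inf_bB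
  have hcC : Commute aC bC := orth_commute aC_inf_bC
  obtain ⟨D, _, _, _, _, f', g', hf', hg', hcomm⟩ :=
    H B₁ (OAut ℚ) (prodHom aB bB hcB) (prodHom aC bC hcC)
      (prodHom_isLEmbedding aB_inf_bB hcB one_lt_aB one_lt_bB)
      (prodHom_isLEmbedding aC_inf_bC hcC one_lt_aC one_lt_bC)
  have ea : f' aB = g' aC := by
    have := DFunLike.congr_fun hcomm (Multiplicative.ofAdd 1, 1)
    simpa [prodHom_apply] using this
  have eb : f' bB = g' bC := by
    have := DFunLike.congr_fun hcomm (1, Multiplicative.ofAdd 1)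
    simpa [prodHom_apply] using this
  refine core (α₁ := f' αB) (α := f' aB) (β := f' bB) (h := f' hB) (k := f' kB)
    (y := g' yy) (x₁ := g' xx₁) (x₂ := g' xx₂) ?_ ?_ ?_ ?_ ?_ ?_ ?_ ?_ ?_ ?_ ?_ ?_ ?_
  · simpa using hf'.lt one_lt_αB
  · exact hf'.le αB_le_aB
  · exact hf'.orth hB_inf_αB
  · rw [← map_mul, ← map_mul, hB_comm]
  · simpa using hf'.le one_le_kB
  · exact hf'.le kB_le_hB
  · simpa using hf'.le kB_conj
  · exact hf'.orth aB_inf_bB
  · simpa using hg'.le one_le_yy
  · rw [ea, eb, bC, map_mul, map_mul, map_inv]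
  · simpa using hg'.le yy_le
  · rw [eb]; exact hg'.orth xx₁_inf_bC
  · rw [ea]; exact hg'.orth xx₂_inf_aC

end Pool.Agent.Results.MP_d8fac8_al.CardinalSum
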