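import Pool.Agent.Work.MP_d8fac8_al.Groups3

set_option autoImplicit false

/-!
# `ℤ ×ₗ ℤ` is not an amalgamation base for lattice-ordered groups
-/

namespace Pool.Agent.Results.MP_d8fac8_al.LexProduct

open Pool.Agent.Work.MP_d8fac8_al

universe w

/-- The totally ordered group `ℤ ×ₗ ℤ` (lexicographic order) is not an amalgamation base for the
class of all `ℓ`-groups. -/
theorem result : ¬ IsAmalgamationBase.{0, 0, w} (Multiplicative ℤ ×ₗ Multiplicative ℤ) := by
  intro H
  have hcB : Commute (b21 * b22) a2 := b2_comm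
  have hcC : Commute (b1Q * b2Q) aQ := bQ_comm
  obtain ⟨D, _, _, _, _, f', g', hf', hg', hcomm⟩ :=
    H B₂ (OAut ℚ) (lexHom a2 (b21 * b22) hcB) (lexHom aQ (b1Q * b2Q) hcC)
      (lexHom_isLEmbedding hcB one_lt_a2 a2_pow_le)
      (lexHom_isLEmbedding hcC one_lt_aQ aQ_pow_le)
  have ea : f' a2 = g' aQ := by
    have := DFunLike.congr_fun hcomm (toLex (1, Multiplicative.ofAdd 1))
    simpa [lexHom_apply] using this
  have eb : f' b21 * f' b22 = g' b1Q * g' b2Q := by
    have := DFunLike.congr_fun hcomm (toLex (Multiplicative.ofAdd 1, 1))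
    simpa [lexHom_apply] using this
  have hle : f' b21 ≤ g' b1Q := by
    refine le_of_decomp (a := f' a2) (g := g' gQ) eb (hf'.orth b21_inf_b22) (hf'.orth b21_inf_a2)
      (hg'.orth b1Q_inf_b2Q) ?_ ?_ ?_
    · simpa using hg'.le one_le_gQ
    · rw [← map_mul]; exact hg'.le gQ_le
    · rw [ea]
      simpa using hg'.le cert
  refine core (α₁ := f' α2) (α := g' b1Q) (β := f' a2) (h := f' h2) (k := f' k2)
    (y := g' yy) (x₁ := g' xx₁) (x₂ := g' xx₂) ?_ ?_ ?_ ?_ ?_ ?_ ?_ ?_ ?_ ?_ ?_ ?_ ?_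
  · simpa using hf'.lt one_lt_α2
  · exact (hf'.le α2_le_b21).trans hle
  · exact hf'.orth h2_inf_α2
  · rw [← map_mul, ← map_mul, h2_comm]
  · simpa using hf'.le one_le_k2
  · exact hf'.le k2_le_h2
  · refine le_trans ?_ hle
    simpa using hf'.le k2_conj
  · rw [ea]; exact hg'.orth b1Q_inf_aQ
  · simpa using hg'.le one_le_yy
  · rw [ea]
    simpa using hg'.le yy_conj
  · simpa using hg'.le yy_le
  · rw [ea]; exact hg'.orth xx₁_inf_aQ
  · exact hg'.orth xx₂_inf_b1Q

end Pool.Agent.Results.MP_d8fac8_al.LexProduct
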